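import Mathlib

/-!
# Orderings of omega-primality values of three generators

A *bullet* of `n_i` is a minimal vector `v ∈ ℕ³` with `φ(v) - n_i ∈ Γ`, `φ(v) = ∑ v_j n_j`. A number
`N > 0` has the property in the definition of `ω(n_i)` if and only if all bullets of `n_i` have
length at most `N` (`upper`, `lower`). Let `W` be an upper bound for the lengths of the bullets of
`n₃`. If some bullet of `n₁` is longer than `W`, then there is a relation `x n₂ = y n₃` with
`x n₂ ∉ n₁ + Γ` (`partA`), and this implies that the bullets of `n₂` have length at most `W`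
(`partB`).
-/

namespace Pool.Agent.Results.MP_1fb722_al.OmegaOrderings

/-- `x ⪯_Γ y`, that is `y - x ∈ Γ`. -/
def Prec (Γ : AddSubmonoid ℕ) (x y : ℕ) : Prop := ∃ z ∈ Γ, x + z = y

/-- The property in the definition of `ω(x)`: whenever `a_1, …, a_r ∈ Γ` and
`x ⪯ a_1 + ⋯ + a_r`, there is `T ⊆ {1, …, r}` with `|T| ≤ N` and `x ⪯ ∑_{i ∈ T} a_i`. -/
def OmegaProp (Γ : AddSubmonoid ℕ) (x N : ℕ) : Prop :=
  ∀ (r : ℕ) (a : Fin r → ℕ), (∀ i, a i ∈ Γ) → Prec Γ x (∑ i, a i) →
    ∃ T : Finset (Fin r), T.card ≤ N ∧ Prec Γ x (∑ i ∈ T, a i)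

/-- The omega-primality value: the least positive integer `N` with the above property
(`∞` if there is none). -/
noncomputable def omegaVal (Γ : AddSubmonoid ℕ) (x : ℕ) : ℕ∞ :=
  sInf {M : ℕ∞ | ∃ N : ℕ, 0 < N ∧ OmegaProp Γ x N ∧ M = N}

/-! ### Bullets -/

section bullets

variable (n : Fin 3 → ℕ)

/-- the value of a vector -/
def phi (v : Fin 3 → ℕ) : ℕ := ∑ j, v j * n j

/-- the monoid -/
def Gam : AddSubmonoid ℕ := AddSubmonoid.closure (Set.range n)

variable {n}

/-- `c e_j` -/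
def sg (j : Fin 3) (c : ℕ) : Fin 3 → ℕ := fun i => if i = j then c else 0

theorem sg_same (j : Fin 3) (c : ℕ) : sg j c j = c := if_pos rfl

theorem sg_ne {i j : Fin 3} (h : i ≠ j) (c : ℕ) : sg j c i = 0 := if_neg h

theorem phi_add (u v : Fin 3 → ℕ) : phi n (u + v) = phi n u + phi n v := by
  unfold phi
  rw [← Finset.sum_add_distrib]
  exact Finset.sum_congr rfl fun j _ => by rw [Pi.add_apply, add_mul]

theorem phi_single (j : Fin 3) (c : ℕ) : phi n (sg j c) = c * n j := by
  unfold phi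
  rw [Finset.sum_eq_single j]
  · rw [sg_same]
  · intro i _ hij
    rw [sg_ne hij, zero_mul]
  · intro h; exact absurd (Finset.mem_univ j) h

theorem mem_Gam (x : ℕ) : x ∈ Gam n ↔ ∃ v, phi n v = x := by
  constructor
  · intro hx
    induction hx using AddSubmonoid.closure_induction with
    | mem x hx =>
      obtain ⟨j, rfl⟩ := hx
      exact ⟨sg j 1, by rw [phi_single, one_mul]⟩
    | zero => exact ⟨0, by simp [phi]⟩
    | add x y _ _ hx hy =>
      obtain ⟨u, rfl⟩ := hx
      obtain ⟨v, rfl⟩ := hy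
      exact ⟨u + v, phi_add u v⟩
  · rintro ⟨v, rfl⟩
    unfold phi
    apply AddSubmonoid.sum_mem
    intro j _
    rw [← smul_eq_mul]
    have hj : n j ∈ Gam n := AddSubmonoid.subset_closure (Set.mem_range_self j)
    exact AddSubmonoid.nsmul_mem _ hj _

/-- `n_i ⪯ φ(v)` -/
def DD (n : Fin 3 → ℕ) (i : Fin 3) (v : Fin 3 → ℕ) : Prop := ∃ u, 0 < u i ∧ phi n v = phi n u

theorem DD_iff (i : Fin 3) (v : Fin 3 → ℕ) : DD n i v ↔ Prec (Gam n) (n i) (phi n v) := by
  constructor
  · rintro ⟨u, hu, h⟩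
    obtain ⟨w, rfl⟩ : ∃ w, u = sg i 1 + w := by
      refine ⟨u - sg i 1, ?_⟩
      funext j
      by_cases hj : j = i
      · subst hj
        simp only [Pi.add_apply, Pi.sub_apply, sg_same]
        omega
      · simp only [Pi.add_apply, Pi.sub_apply, sg_ne hj]
        omega
    refine ⟨phi n w, (mem_Gam _).2 ⟨w, rfl⟩, ?_⟩
    rw [h, phi_add, phi_single, one_mul]
  · rintro ⟨z, hz, h⟩
    obtain ⟨w, rfl⟩ := (mem_Gam _).1 hz
    exact ⟨sg i 1 + w, by rw [Pi.add_apply, sg_same]; omega, by rw [phi_add, phi_single, one_mul, h]⟩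

theorem DD_mono {i : Fin 3} {v w : Fin 3 → ℕ} (h : DD n i v) (hvw : v ≤ w) : DD n i w := by
  obtain ⟨u, hu, h⟩ := h
  obtain ⟨t, rfl⟩ : ∃ t, w = v + t := ⟨w - v, by
    funext j
    have h1 : v j ≤ w j := hvw j
    simp only [Pi.add_apply, Pi.sub_apply]
    omega⟩
  exact ⟨u + t, by rw [Pi.add_apply]; omega, by rw [phi_add, phi_add, h]⟩

/-- `v` is a bullet of `n_i` -/
def Bul (n : Fin 3 → ℕ) (i : Fin 3) (v : Fin 3 → ℕ) : Prop :=
  DD n i v ∧ ∀ w, w ≤ v → DD n i w → w = v

/-- the length -/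
def len (v : Fin 3 → ℕ) : ℕ := ∑ j, v j

theorem exists_bul {i : Fin 3} {v : Fin 3 → ℕ} (h : DD n i v) : ∃ w, w ≤ v ∧ Bul n i w := by
  obtain ⟨w, ⟨hw1, hw2⟩, hmin⟩ := WellFounded.has_min (wellFounded_lt (α := Fin 3 → ℕ))
    {w | w ≤ v ∧ DD n i w} ⟨v, le_rfl, h⟩
  refine ⟨w, hw1, hw2, fun w' hw' hD => ?_⟩
  by_contra hne
  exact hmin w' ⟨hw'.trans hw1, hD⟩ (lt_of_le_of_ne hw' hne)

theorem len_mono {v w : Fin 3 → ℕ} (h : v ≤ w) : len v ≤ len w :=
  Finset.sum_le_sum fun j _ => h j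

theorem len_add (v w : Fin 3 → ℕ) : len (v + w) = len v + len w := by
  unfold len
  rw [← Finset.sum_add_distrib]
  rfl

theorem len_single (j : Fin 3) (c : ℕ) : len (sg j c) = c := by
  unfold len sg
  simp

/-- choosing few summands -/
theorem choose_subset {ι : Type*} (T : Finset ι) (v : ι → Fin 3 → ℕ) (k : ℕ) :
    ∀ b : Fin 3 → ℕ, len b = k → b ≤ ∑ i ∈ T, v i →
      ∃ T' ⊆ T, T'.card ≤ k ∧ b ≤ ∑ i ∈ T', v i := by
  classical
  induction k with
  | zero =>
    intro b hb _
    refine ⟨∅, Finset.empty_subset _, by simp, ?_⟩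
    intro j
    have h1 : b j ≤ len b := Finset.single_le_sum (f := b) (fun _ _ => Nat.zero_le _)
      (Finset.mem_univ j)
    rw [hb] at h1
    exact h1
  | succ k ih =>
    intro b hb hbT
    obtain ⟨j, hj⟩ : ∃ j, 0 < b j := by
      by_contra hcon
      push Not at hcon
      have : len b = 0 := Finset.sum_eq_zero fun j _ => Nat.le_zero.1 (hcon j)
      omega
    obtain ⟨b', rfl⟩ : ∃ b', b = b' + sg j 1 := by
      refine ⟨b - sg j 1, ?_⟩
      funext i
      by_cases hi : i = j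
      · subst hi
        simp only [Pi.add_apply, Pi.sub_apply, sg_same]
        omega
      · simp only [Pi.add_apply, Pi.sub_apply, sg_ne hi]
        omega
    rw [len_add, len_single] at hb
    have hb'le : b' ≤ b' + sg j 1 := by
      intro i
      change b' i ≤ b' i + sg j 1 i
      omega
    obtain ⟨T', hT', hcard, hle⟩ := ih b' (by omega) (le_trans hb'le hbT)
    by_cases hdone : b' + sg j 1 ≤ ∑ i ∈ T', v i
    · exact ⟨T', hT', by omega, hdone⟩
    · have hj' : (∑ i ∈ T', v i) j < b' j + 1 := by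
        by_contra hge
        apply hdone
        intro i
        change b' i + sg j 1 i ≤ (∑ i ∈ T', v i) i
        by_cases hi : i = j
        · subst hi
          rw [sg_same]
          omega
        · rw [sg_ne hi, add_zero]
          exact hle i
      obtain ⟨i, hiT, hiT', hi⟩ : ∃ i ∈ T, i ∉ T' ∧ 0 < v i j := by
        by_contra hcon
        push Not at hcon
        have h1 : (∑ i ∈ T, v i) j = (∑ i ∈ T', v i) j := by
          rw [Finset.sum_apply, Finset.sum_apply]
          symm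
          apply Finset.sum_subset hT'
          intro i hi hi'
          exact Nat.le_zero.1 (hcon i hi hi')
        have h2 : b' j + sg j 1 j ≤ (∑ i ∈ T, v i) j := hbT j
        rw [sg_same, h1] at h2
        omega
      refine ⟨insert i T', Finset.insert_subset hiT hT', ?_, ?_⟩
      · rw [Finset.card_insert_of_notMem hiT']
        omega
      · rw [Finset.sum_insert hiT']
        intro l
        have h1 : b' l ≤ (∑ i ∈ T', v i) l := hle l
        change b' l + sg j 1 l ≤ v i l + (∑ i ∈ T', v i) l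
        by_cases hl : l = j
        · subst hl
          rw [sg_same]
          omega
        · rw [sg_ne hl]
          omega

theorem upper {i : Fin 3} {N : ℕ} (h : ∀ v, Bul n i v → len v ≤ N) :
    OmegaProp (Gam n) (n i) N := by
  intro r a ha hprec
  choose v hv using fun k => (mem_Gam _).1 (ha k)
  have hsum : ∀ T : Finset (Fin r), ∑ k ∈ T, a k = phi n (∑ k ∈ T, v k) := by
    classical
    intro T
    induction T using Finset.induction_on with
    | empty => simp [phi]
    | insert k T hk ih => rw [Finset.sum_insert hk, Finset.sum_insert hk, phi_add, ih, hv]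
  rw [hsum, ← DD_iff] at hprec
  obtain ⟨b, hb, hbul⟩ := exists_bul hprec
  obtain ⟨T, _, hT, hbT⟩ := choose_subset Finset.univ v (len b) b rfl hb
  refine ⟨T, hT.trans (h b hbul), ?_⟩
  rw [hsum, ← DD_iff]
  exact DD_mono hbul.1 hbT

theorem lower {i : Fin 3} {N : ℕ} (h : OmegaProp (Gam n) (n i) N) {v : Fin 3 → ℕ}
    (hv : Bul n i v) : len v ≤ N := by
  classical
  -- the list of the generators
  let c : (Σ j : Fin 3, Fin (v j)) → ℕ := fun p => n p.1
  let e : Fin (len v) ≃ (Σ j : Fin 3, Fin (v j)) := (finCongr (by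
    rw [Fintype.card_sigma]
    simp only [Fintype.card_fin]
    rfl)).trans (Fintype.equivFin (Σ j : Fin 3, Fin (v j))).symm
  have hsum : ∀ U : Finset (Σ j : Fin 3, Fin (v j)), ∑ p ∈ U, c p =
      phi n (fun j => (U.filter fun p => p.1 = j).card) := by
    intro U
    unfold phi
    rw [← Finset.sum_fiberwise U (fun p => p.1)]
    apply Finset.sum_congr rfl
    intro j _
    rw [Finset.sum_congr rfl (g := fun _ => n j) (fun p hp => by
      rw [Finset.mem_filter] at hp
      change n p.1 = n j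
      rw [hp.2]), Finset.sum_const, smul_eq_mul]
  have huniv : (fun j => ((Finset.univ : Finset (Σ j : Fin 3, Fin (v j))).filter
      fun p => p.1 = j).card) = v := by
    funext j
    have : (Finset.univ : Finset (Σ j : Fin 3, Fin (v j))).filter (fun p => p.1 = j) =
        (Finset.univ : Finset (Fin (v j))).map ⟨fun k => ⟨j, k⟩, fun a b h => by
          simpa using h⟩ := by
      ext ⟨j', k⟩
      simp only [Finset.mem_filter, Finset.mem_univ, true_and, Finset.mem_map,
        Function.Embedding.coeFn_mk]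
      constructor
      · rintro rfl; exact ⟨k, rfl⟩
      · rintro ⟨k', hk'⟩
        exact (congrArg Sigma.fst hk').symm
    rw [this, Finset.card_map, Finset.card_univ, Fintype.card_fin]
  obtain ⟨T, hT, hprec⟩ := h (len v) (fun k => c (e k))
    (fun k => AddSubmonoid.subset_closure (Set.mem_range_self _)) (by
      rw [Equiv.sum_comp e c, hsum, huniv, ← DD_iff]
      exact hv.1)
  have h1 : ∑ k ∈ T, c (e k) = ∑ p ∈ T.map e.toEmbedding, c p := by
    rw [Finset.sum_map]; rfl
  rw [h1, hsum, ← DD_iff] at hprec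
  have h2 := hv.2 _ (by
    intro j
    have h4 := congrFun huniv j
    conv_rhs => rw [← h4]
    exact Finset.card_le_card (Finset.filter_subset_filter _ (Finset.subset_univ _))) hprec
  have h3 : len v = (T.map e.toEmbedding).card := by
    conv_lhs => rw [← h2]
    unfold len
    exact (Finset.card_eq_sum_card_fiberwise (fun p _ => Finset.mem_univ p.1)).symm
  rw [h3, Finset.card_map]
  exact hT

end bullets

/-! ### The arithmetic -/

section arith

variable (N1 N2 N3 : ℕ)

def D1 (s : ℕ) : Prop := ∃ x y z, s = (x + 1) * N1 + y * N2 + z * N3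
def D2 (s : ℕ) : Prop := ∃ x y z, s = x * N1 + (y + 1) * N2 + z * N3
def D3 (s : ℕ) : Prop := ∃ x y z, s = x * N1 + y * N2 + (z + 1) * N3

/-- `(a, b, c)` is minimal with `D` -/
def BB (D : ℕ → Prop) (a b c : ℕ) : Prop :=
  D (a * N1 + b * N2 + c * N3) ∧ (∀ a', a = a' + 1 → ¬ D (a' * N1 + b * N2 + c * N3)) ∧
    (∀ b', b = b' + 1 → ¬ D (a * N1 + b' * N2 + c * N3)) ∧
    (∀ c', c = c' + 1 → ¬ D (a * N1 + b * N2 + c' * N3))

variable {N1 N2 N3}

theorem D1_add {s : ℕ} (h : D1 N1 N2 N3 s) (x y z : ℕ) :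
    D1 N1 N2 N3 (s + (x * N1 + y * N2 + z * N3)) := by
  obtain ⟨a, b, c, rfl⟩ := h
  exact ⟨a + x, b + y, c + z, by ring⟩

theorem D2_add {s : ℕ} (h : D2 N1 N2 N3 s) (x y z : ℕ) :
    D2 N1 N2 N3 (s + (x * N1 + y * N2 + z * N3)) := by
  obtain ⟨a, b, c, rfl⟩ := h
  exact ⟨a + x, b + y, c + z, by ring⟩

theorem D3_add {s : ℕ} (h : D3 N1 N2 N3 s) (x y z : ℕ) :
    D3 N1 N2 N3 (s + (x * N1 + y * N2 + z * N3)) := by
  obtain ⟨a, b, c, rfl⟩ := h
  exact ⟨a + x, b + y, c + z, by ring⟩

theorem lt_of_mul {a b m n : ℕ} (hmn : m < n) (hb : 0 < b) (h : a * m = b * n) : b < a := by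
  by_contra hle
  rw [not_lt] at hle
  have h1 : a * m ≤ b * m := Nat.mul_le_mul_right m hle
  have h2 : b * m < b * n := Nat.mul_lt_mul_of_pos_left hmn hb
  omega

/-- first part -/
theorem partA (h1 : 0 < N1) (h12 : N1 < N2) (h23 : N2 < N3) {W : ℕ}
    (h3 : ∀ a b c, BB N1 N2 N3 (D3 N1 N2 N3) a b c → a + b + c ≤ W)
    (h3' : ∀ a b c, D3 N1 N2 N3 (a * N1 + b * N2 + c * N3) →
      ∃ a' b' c', a' ≤ a ∧ b' ≤ b ∧ c' ≤ c ∧ BB N1 N2 N3 (D3 N1 N2 N3) a' b' c')
    (p1 : ∃ m, BB N1 N2 N3 (D3 N1 N2 N3) (m + 1) 0 0)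
    (p2 : ∃ m, BB N1 N2 N3 (D3 N1 N2 N3) 0 (m + 1) 0)
    {a b c : ℕ} (hb : BB N1 N2 N3 (D1 N1 N2 N3) a b c) (hlen : W < a + b + c) :
    ∃ x y, (x + 1) * N2 = (y + 1) * N3 ∧ ¬ D1 N1 N2 N3 ((x + 1) * N2) := by
  obtain ⟨m1, hm1⟩ := p1
  obtain ⟨m2, hm2⟩ := p2
  have hW1 := h3 _ _ _ hm1
  have hW2 := h3 _ _ _ hm2
  obtain ⟨hD, ha, hb', hc'⟩ := hb
  rcases a with _ | a
  swap
  · -- `a > 0` : the bullet is `e_1`
    exfalso
    rcases b with _ | b
    · rcases c with _ | c
      · rcases a with _ | a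
        · omega
        · exact ha (a + 1) rfl ⟨a, 0, 0, by ring⟩
      · exact hc' c rfl ⟨a, 0, c, by ring⟩
    · exact hb' b rfl ⟨a, b, c, by ring⟩
  obtain ⟨u, v, w, hu⟩ := hD
  rcases b with _ | b
  · rcases c with _ | c
    · exfalso
      omega
    · -- `(0, 0, c+1)`
      rcases w with _ | w
      swap
      · exact absurd ⟨u, v, w, by linarith⟩ (hc' c rfl)
      rcases v with _ | v
      · exfalso
        have h4 : c + 1 < u + 1 := lt_of_mul (h12.trans h23) (by omega)
          (by linarith : (u + 1) * N1 = (c + 1) * N3)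
        have h5 : BB N1 N2 N3 (D3 N1 N2 N3) (u + 1) 0 0 := by
          refine ⟨⟨0, 0, c, by linarith⟩, ?_, fun b' hb' => by omega, fun c' hc' => by omega⟩
          intro a' ha' hD
          obtain ⟨x, y, z, h⟩ := hD
          have : a' = u := by omega
          subst this
          exact hc' c rfl ⟨x, y, z, by linarith⟩
        have := h3 _ _ _ h5
        omega
      · obtain ⟨a', b', c', ha', hb'', hc'', hB⟩ := h3' (u + 1) (v + 1) 0 ⟨0, 0, c, by linarith⟩
        have hc0 : c' = 0 := by omega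
        subst hc0
        have hl := h3 _ _ _ hB
        have hlt : c + 1 < u + 1 + (v + 1) := by
          by_contra hle
          rw [not_lt] at hle
          have e1 : (u + 1 + (v + 1)) * N3 ≤ (c + 1) * N3 := Nat.mul_le_mul_right _ hle
          have e2 : (u + 1) * N1 < (u + 1) * N3 :=
            Nat.mul_lt_mul_of_pos_left (h12.trans h23) (by omega)
          have e3 : (v + 1) * N2 < (v + 1) * N3 := Nat.mul_lt_mul_of_pos_left h23 (by omega)
          linarith
        obtain ⟨⟨x, y, z, hxyz⟩, -, -, -⟩ := hB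
        -- first coordinate
        have ha1 : a' = u + 1 := by
          by_contra hne
          obtain ⟨t, ht⟩ : ∃ t, u + 1 = a' + (t + 1) := ⟨u + 1 - a' - 1, by omega⟩
          obtain ⟨r, hr⟩ : ∃ r, v + 1 = b' + r := ⟨v + 1 - b', by omega⟩
          apply hc' c rfl
          refine ⟨t + x, r + y, z, ?_⟩
          rw [ht, hr] at hu
          linarith
        have hx : x = 0 := by
          by_contra hne
          obtain ⟨t, ht⟩ : ∃ t, x = t + 1 := ⟨x - 1, by omega⟩
          obtain ⟨r, hr⟩ : ∃ r, v + 1 = b' + r := ⟨v + 1 - b', by omega⟩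
          apply hc' c rfl
          refine ⟨t, r + y, z, ?_⟩
          rw [← ha1, hr] at hu
          rw [ht] at hxyz
          linarith
        subst hx
        obtain ⟨r, hr⟩ : ∃ r, v + 1 = b' + (r + 1) := ⟨v + 1 - b' - 1, by omega⟩
        have heq : c * N3 = (r + y + 1) * N2 + z * N3 := by
          rw [← ha1, hr] at hu
          linarith
        have hzc : z < c := by
          by_contra hle
          rw [not_lt] at hle
          have e1 : c * N3 ≤ z * N3 := Nat.mul_le_mul_right _ hle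
          have e2 : 0 < (r + y + 1) * N2 := Nat.mul_pos (by omega) (by omega)
          omega
        obtain ⟨t, ht⟩ : ∃ t, c = z + (t + 1) := ⟨c - z - 1, by omega⟩
        have heq2 : (r + y + 1) * N2 = (t + 1) * N3 := by
          rw [ht] at heq
          linarith
        refine ⟨r + y, t, heq2, ?_⟩
        intro hD
        rw [heq2] at hD
        apply hc' c rfl
        have := D1_add hD 0 0 z
        rw [ht]
        convert this using 1
        ring
  · rcases c with _ | c
    · -- `(0, b+1, 0)`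
      rcases v with _ | v
      swap
      · exact absurd ⟨u, v, w, by linarith⟩ (hb' b rfl)
      -- `D3` holds
      have hD3 : D3 N1 N2 N3 ((b + 1) * N2) := by
        rcases w with _ | w
        swap
        · exact ⟨u + 1, 0, w, by linarith⟩
        · have h4 : b + 1 < u + 1 := lt_of_mul h12 (by omega)
            (by linarith : (u + 1) * N1 = (b + 1) * N2)
          obtain ⟨⟨x, y, z, hxyz⟩, -, -, -⟩ := hm1
          obtain ⟨t, ht⟩ : ∃ t, u + 1 = (m1 + 1) + t := ⟨u - m1, by omega⟩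
          refine ⟨t + x, y, z, ?_⟩
          rw [ht] at hu
          linarith
      obtain ⟨⟨x, y, z, hxyz⟩, -, hm2', -⟩ := hm2
      have hm2b : m2 < b := by omega
      obtain ⟨t, ht⟩ : ∃ t, b = m2 + 1 + t := ⟨b - m2 - 1, by omega⟩
      have hx : x = 0 := by
        by_contra hne
        obtain ⟨k, hk⟩ : ∃ k, x = k + 1 := ⟨x - 1, by omega⟩
        apply hb' b rfl
        refine ⟨k, y + t, z + 1, ?_⟩
        rw [ht]
        rw [hk] at hxyz
        linarith
      have hy : y = 0 := by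
        by_contra hne
        obtain ⟨k, hk⟩ : ∃ k, y = k + 1 := ⟨y - 1, by omega⟩
        apply hm2' m2 rfl
        refine ⟨x, k, z, ?_⟩
        rw [hk] at hxyz
        linarith
      subst hx hy
      refine ⟨m2, z, by linarith, ?_⟩
      intro hD
      apply hb' b rfl
      have := D1_add hD 0 t 0
      rw [ht]
      convert this using 1
      ring
    · -- `(0, b+1, c+1)`
      exfalso
      rcases v with _ | v
      swap
      · exact hb' b rfl ⟨u, v, w, by linarith⟩
      rcases w with _ | w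
      swap
      · exact hc' c rfl ⟨u, 0, w, by linarith⟩
      have h5 : BB N1 N2 N3 (D3 N1 N2 N3) (u + 1) 0 0 := by
        refine ⟨⟨0, b + 1, c, by linarith⟩, ?_, fun b' hb' => by omega, fun c' hc' => by omega⟩
        intro a' ha' hD
        obtain ⟨x, y, z, h⟩ := hD
        have : a' = u := by omega
        subst this
        exact hc' c rfl ⟨x, y, z, by linarith⟩
      have h6 := h3 _ _ _ h5
      have h7 : b + 1 + (c + 1) < u + 1 := by
        by_contra hle
        rw [not_lt] at hle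
        have e1 : (u + 1) * N1 ≤ (b + 1 + (c + 1)) * N1 := Nat.mul_le_mul_right _ hle
        have e2 : (b + 1) * N1 < (b + 1) * N2 := Nat.mul_lt_mul_of_pos_left h12 (by omega)
        have e3 : (c + 1) * N1 < (c + 1) * N3 :=
          Nat.mul_lt_mul_of_pos_left (h12.trans h23) (by omega)
        linarith
      omega

/-- second part -/
theorem partB (h1 : 0 < N1) (h12 : N1 < N2) (h23 : N2 < N3) {W : ℕ} (hW : 0 < W)
    (h3 : ∀ a b c, BB N1 N2 N3 (D3 N1 N2 N3) a b c → a + b + c ≤ W)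
    (p1 : ∃ m, BB N1 N2 N3 (D3 N1 N2 N3) (m + 1) 0 0)
    (hxy : ∃ x y, (x + 1) * N2 = (y + 1) * N3 ∧ ¬ D1 N1 N2 N3 ((x + 1) * N2))
    {a b c : ℕ} (hb : BB N1 N2 N3 (D2 N1 N2 N3) a b c) : a + b + c ≤ W := by
  obtain ⟨m1, hm1⟩ := p1
  have hW1 := h3 _ _ _ hm1
  -- minimal relation
  classical
  have hex : ∃ x, ∃ y, (x + 1) * N2 = (y + 1) * N3 := by
    obtain ⟨x, y, h, -⟩ := hxy
    exact ⟨x, y, h⟩
  set q := Nat.find hex with hq
  obtain ⟨p, hpq⟩ := Nat.find_spec hex
  rw [← hq] at hpq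
  have hmin : ∀ x y, (x + 1) * N2 = (y + 1) * N3 → q ≤ x := fun x y h => Nat.find_min' hex ⟨y, h⟩
  have hnD : ¬ D1 N1 N2 N3 ((q + 1) * N2) := by
    intro hD
    obtain ⟨x, y, h, hn⟩ := hxy
    apply hn
    obtain ⟨t, ht⟩ : ∃ t, x = q + t := ⟨x - q, by have := hmin x y h; omega⟩
    have := D1_add hD 0 t 0
    rw [ht]
    convert this using 1
    ring
  have hpq' : p + 1 < q + 1 := lt_of_mul h23 (by omega) hpq
  -- `q + 1 ≤ W`
  have hqW : q + 1 ≤ W := by
    have : BB N1 N2 N3 (D3 N1 N2 N3) 0 (q + 1) 0 := by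
      refine ⟨⟨0, 0, p, by linarith⟩, fun a' ha' => by omega, ?_, fun c' hc' => by omega⟩
      intro b' hb' hD
      have hbq : b' = q := by omega
      rw [hbq] at hD
      obtain ⟨x, y, z, h⟩ := hD
      have hx : x = 0 := by
        by_contra hne
        obtain ⟨k, hk⟩ : ∃ k, x = k + 1 := ⟨x - 1, by omega⟩
        apply hnD
        refine ⟨k, y + 1, z + 1, ?_⟩
        rw [hk] at h
        linarith
      subst hx
      have hyb : y < q := by
        by_contra hle
        rw [not_lt] at hle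
        have e1 : q * N2 ≤ y * N2 := Nat.mul_le_mul_right _ hle
        have e2 : 0 < (z + 1) * N3 := Nat.mul_pos (by omega) (by omega)
        omega
      obtain ⟨t, ht⟩ : ∃ t, q = y + (t + 1) := ⟨q - y - 1, by omega⟩
      have h5 : (t + 1) * N2 = (z + 1) * N3 := by
        have h6 : q * N2 = y * N2 + (t + 1) * N2 := by
          conv_lhs => rw [ht]
          ring
        linarith
      have := hmin t z h5
      omega
    have := h3 _ _ _ this
    omega
  obtain ⟨hD, ha, hb', hc'⟩ := hb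
  rcases b with _ | b
  swap
  · rcases a with _ | a
    · rcases c with _ | c
      · rcases b with _ | b
        · omega
        · exact absurd ⟨0, b, 0, by ring⟩ (hb' (b + 1) rfl)
      · exact absurd ⟨0, b, c, by ring⟩ (hc' c rfl)
    · exact absurd ⟨a, b, c, by ring⟩ (ha a rfl)
  rcases a with _ | a
  · -- `(0, 0, c)`
    rcases c with _ | c
    · omega
    · have : c < p + 1 := by
        by_contra hle
        rw [not_lt] at hle
        obtain ⟨t, ht⟩ : ∃ t, c = p + 1 + t := ⟨c - p - 1, by omega⟩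
        apply hc' c rfl
        refine ⟨0, q, t, ?_⟩
        rw [ht]
        linarith
      omega
  · rcases c with _ | c
    · -- `(a+1, 0, 0)`
      by_contra hlen
      rw [not_le] at hlen
      obtain ⟨⟨x, y, z, hxyz⟩, hm1', -, -⟩ := hm1
      obtain ⟨t, ht⟩ : ∃ t, a = m1 + 1 + t := ⟨a - m1 - 1, by omega⟩
      have hy : y = 0 := by
        by_contra hne
        obtain ⟨k, hk⟩ : ∃ k, y = k + 1 := ⟨y - 1, by omega⟩
        apply ha a rfl
        refine ⟨x + t, k, z + 1, ?_⟩
        rw [ht]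
        rw [hk] at hxyz
        linarith
      have hx : x = 0 := by
        by_contra hne
        obtain ⟨k, hk⟩ : ∃ k, x = k + 1 := ⟨x - 1, by omega⟩
        apply hm1' m1 rfl
        refine ⟨k, y, z, ?_⟩
        rw [hk] at hxyz
        linarith
      subst hx hy
      have hz : (m1 + 1) * N1 = (z + 1) * N3 := by linarith
      rcases Nat.lt_or_ge p z with hpz | hpz
      · obtain ⟨k, hk⟩ : ∃ k, z = p + 1 + k := ⟨z - p - 1, by omega⟩
        apply ha a rfl
        refine ⟨t, q, k + 1, ?_⟩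
        rw [ht]
        rw [hk] at hz
        linarith
      · obtain ⟨k, hk⟩ : ∃ k, p = z + k := ⟨p - z, by omega⟩
        apply hnD
        refine ⟨m1, 0, k, ?_⟩
        rw [hk] at hpq
        linarith
    · -- `(a+1, 0, c+1)`
      exfalso
      obtain ⟨u, v, w, hu⟩ := hD
      rcases u with _ | u
      swap
      · exact ha a rfl ⟨u, v, w, by linarith⟩
      rcases w with _ | w
      swap
      · exact hc' c rfl ⟨0, v, w, by linarith⟩
      rcases Nat.lt_or_ge q v with hqv | hqv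
      · obtain ⟨k, hk⟩ : ∃ k, v = q + 1 + k := ⟨v - q - 1, by omega⟩
        apply hc' c rfl
        refine ⟨0, k, p, ?_⟩
        rw [hk] at hu
        linarith
      · obtain ⟨k, hk⟩ : ∃ k, q = v + k := ⟨q - v, by omega⟩
        apply hnD
        refine ⟨a, k, c + 1, ?_⟩
        rw [hk]
        linarith

end arith

/-! ### The result -/

section final

variable {N1 N2 N3 : ℕ}

theorem phi_eq (v : Fin 3 → ℕ) : phi ![N1, N2, N3] v = v 0 * N1 + v 1 * N2 + v 2 * N3 := by
  unfold phi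
  rw [Fin.sum_univ_three]
  rfl

theorem DD0 (v : Fin 3 → ℕ) : DD ![N1, N2, N3] 0 v ↔
    D1 N1 N2 N3 (v 0 * N1 + v 1 * N2 + v 2 * N3) := by
  rw [← phi_eq]
  constructor
  · rintro ⟨u, hu, h⟩
    refine ⟨u 0 - 1, u 1, u 2, ?_⟩
    rw [h, phi_eq, Nat.sub_add_cancel hu]
  · rintro ⟨x, y, z, h⟩
    exact ⟨![x + 1, y, z], Nat.succ_pos x, by rw [h, phi_eq]; rfl⟩

theorem DD1 (v : Fin 3 → ℕ) : DD ![N1, N2, N3] 1 v ↔
    D2 N1 N2 N3 (v 0 * N1 + v 1 * N2 + v 2 * N3) := by
  rw [← phi_eq]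
  constructor
  · rintro ⟨u, hu, h⟩
    refine ⟨u 0, u 1 - 1, u 2, ?_⟩
    rw [h, phi_eq, Nat.sub_add_cancel hu]
  · rintro ⟨x, y, z, h⟩
    exact ⟨![x, y + 1, z], Nat.succ_pos y, by rw [h, phi_eq]; rfl⟩

theorem DD2 (v : Fin 3 → ℕ) : DD ![N1, N2, N3] 2 v ↔
    D3 N1 N2 N3 (v 0 * N1 + v 1 * N2 + v 2 * N3) := by
  rw [← phi_eq]
  constructor
  · rintro ⟨u, hu, h⟩
    refine ⟨u 0, u 1, u 2 - 1, ?_⟩
    rw [h, phi_eq, Nat.sub_add_cancel hu]
  · rintro ⟨x, y, z, h⟩
    exact ⟨![x, y, z + 1], Nat.succ_pos z, by rw [h, phi_eq]; rfl⟩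

theorem bul_iff (i : Fin 3) (D : ℕ → Prop)
    (hD : ∀ v, DD ![N1, N2, N3] i v ↔ D (v 0 * N1 + v 1 * N2 + v 2 * N3)) (v : Fin 3 → ℕ) :
    Bul ![N1, N2, N3] i v ↔ BB N1 N2 N3 D (v 0) (v 1) (v 2) := by
  constructor
  · rintro ⟨h, hmin⟩
    refine ⟨(hD v).1 h, fun a' ha' h' => ?_, fun a' ha' h' => ?_, fun a' ha' h' => ?_⟩
    · have h2 := hmin ![a', v 1, v 2] (by
        intro j; fin_cases j
        · change a' ≤ v 0; omega
        · exact le_rfl
        · exact le_rfl) ((hD _).2 h')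
      have h3 : a' = v 0 := congrFun h2 0
      omega
    · have h2 := hmin ![v 0, a', v 2] (by
        intro j; fin_cases j
        · exact le_rfl
        · change a' ≤ v 1; omega
        · exact le_rfl) ((hD _).2 h')
      have h3 : a' = v 1 := congrFun h2 1
      omega
    · have h2 := hmin ![v 0, v 1, a'] (by
        intro j; fin_cases j
        · exact le_rfl
        · exact le_rfl
        · change a' ≤ v 2; omega) ((hD _).2 h')
      have h3 : a' = v 2 := congrFun h2 2
      omega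
  · rintro ⟨h, ha, hb, hc⟩
    refine ⟨(hD v).2 h, fun w hw hDw => ?_⟩
    have w0 : w 0 ≤ v 0 := hw 0
    have w1 : w 1 ≤ v 1 := hw 1
    have w2 : w 2 ≤ v 2 := hw 2
    by_contra hne
    have hne' : w 0 < v 0 ∨ w 1 < v 1 ∨ w 2 < v 2 := by
      by_contra hcon
      apply hne
      funext j
      fin_cases j
      · change w 0 = v 0; omega
      · change w 1 = v 1; omega
      · change w 2 = v 2; omega
    rcases hne' with h' | h' | h'
    · apply ha (v 0 - 1) (by omega)
      have := DD_mono hDw (w := ![v 0 - 1, v 1, v 2]) (by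
        intro j; fin_cases j
        · change w 0 ≤ v 0 - 1; omega
        · exact w1
        · exact w2)
      exact (hD _).1 this
    · apply hb (v 1 - 1) (by omega)
      have := DD_mono hDw (w := ![v 0, v 1 - 1, v 2]) (by
        intro j; fin_cases j
        · exact w0
        · change w 1 ≤ v 1 - 1; omega
        · exact w2)
      exact (hD _).1 this
    · apply hc (v 2 - 1) (by omega)
      have := DD_mono hDw (w := ![v 0, v 1, v 2 - 1]) (by
        intro j; fin_cases j
        · exact w0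
        · exact w1
        · change w 2 ≤ v 2 - 1; omega)
      exact (hD _).1 this

theorem len_eq (v : Fin 3 → ℕ) : len v = v 0 + v 1 + v 2 := by
  unfold len
  rw [Fin.sum_univ_three]

/-- pure bullets -/
theorem pure1 (h1 : 0 < N1) (h3 : 0 < N3) : ∃ m, BB N1 N2 N3 (D3 N1 N2 N3) (m + 1) 0 0 := by
  classical
  have hex : ∃ m, D3 N1 N2 N3 (m * N1) := ⟨N3, 0, 0, N1 - 1, by
    rw [Nat.sub_add_cancel h1]; ring⟩
  have hspec := Nat.find_spec hex
  have hmin : ∀ m, m < Nat.find hex → ¬ D3 N1 N2 N3 (m * N1) := fun m hm => Nat.find_min hex hm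
  set m := Nat.find hex
  rcases m with _ | m
  · exfalso
    obtain ⟨x, y, z, h⟩ := hspec
    have : 0 < (z + 1) * N3 := Nat.mul_pos (by omega) h3
    omega
  · refine ⟨m, by simpa using hspec, ?_, fun b' hb' => by omega, fun c' hc' => by omega⟩
    intro a' ha' hD
    apply hmin a' (by omega)
    simpa using hD

theorem pure2 (h2 : 0 < N2) (h3 : 0 < N3) : ∃ m, BB N1 N2 N3 (D3 N1 N2 N3) 0 (m + 1) 0 := by
  classical
  have hex : ∃ m, D3 N1 N2 N3 (m * N2) := ⟨N3, 0, 0, N2 - 1, by
    rw [Nat.sub_add_cancel h2]; ring⟩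
  have hspec := Nat.find_spec hex
  have hmin : ∀ m, m < Nat.find hex → ¬ D3 N1 N2 N3 (m * N2) := fun m hm => Nat.find_min hex hm
  set m := Nat.find hex
  rcases m with _ | m
  · exfalso
    obtain ⟨x, y, z, h⟩ := hspec
    have : 0 < (z + 1) * N3 := Nat.mul_pos (by omega) h3
    omega
  · refine ⟨m, by simpa using hspec, fun b' hb' => by omega, ?_, fun c' hc' => by omega⟩
    intro a' ha' hD
    apply hmin a' (by omega)
    simpa using hD

theorem key (h1 : 0 < N1) (h12 : N1 < N2) (h23 : N2 < N3) {W : ℕ} (hW : 0 < W)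
    (hprop : OmegaProp (Gam ![N1, N2, N3]) N3 W) :
    OmegaProp (Gam ![N1, N2, N3]) N1 W ∨ OmegaProp (Gam ![N1, N2, N3]) N2 W := by
  have h3 : ∀ a b c, BB N1 N2 N3 (D3 N1 N2 N3) a b c → a + b + c ≤ W := by
    intro a b c hB
    have := lower (n := ![N1, N2, N3]) (i := 2) hprop (v := ![a, b, c])
      ((bul_iff 2 _ DD2 _).2 hB)
    rwa [len_eq] at this
  have h3' : ∀ a b c, D3 N1 N2 N3 (a * N1 + b * N2 + c * N3) →
      ∃ a' b' c', a' ≤ a ∧ b' ≤ b ∧ c' ≤ c ∧ BB N1 N2 N3 (D3 N1 N2 N3) a' b' c' := by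
    intro a b c hD
    obtain ⟨w, hw, hB⟩ := exists_bul ((DD2 ![a, b, c]).2 hD)
    exact ⟨w 0, w 1, w 2, hw 0, hw 1, hw 2, (bul_iff 2 _ DD2 _).1 hB⟩
  have p1 := pure1 (N2 := N2) h1 (by omega : 0 < N3)
  have p2 := pure2 (N1 := N1) (by omega : 0 < N2) (by omega : 0 < N3)
  by_cases hall : ∀ v, Bul ![N1, N2, N3] 0 v → len v ≤ W
  · left
    exact upper (n := ![N1, N2, N3]) (i := 0) hall
  · right
    push Not at hall
    obtain ⟨v, hv, hlen⟩ := hall
    rw [len_eq] at hlen
    have hxy := partA h1 h12 h23 h3 h3' p1 p2 ((bul_iff 0 _ DD0 v).1 hv) hlen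
    apply upper (n := ![N1, N2, N3]) (i := 1)
    intro u hu
    rw [len_eq]
    exact partB h1 h12 h23 hW h3 p1 hxy ((bul_iff 1 _ DD1 u).1 hu)

end final

/-- **Main theorem.** Let `Γ = ⟨n₁, n₂, n₃⟩` with `0 < n₁ < n₂ < n₃`. Then
`min (ω(n₁), ω(n₂)) ≤ ω(n₃)`, and so none of the orderings (a), (b), (c) holds. -/
theorem result (n₁ n₂ n₃ : ℕ) (h1 : 0 < n₁) (h12 : n₁ < n₂) (h23 : n₂ < n₃) (Γ : AddSubmonoid ℕ)
    (hΓ : Γ = AddSubmonoid.closure {n₁, n₂, n₃}) :
    min (omegaVal Γ n₁) (omegaVal Γ n₂) ≤ omegaVal Γ n₃ ∧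
    ¬ (omegaVal Γ n₁ > omegaVal Γ n₂ ∧ omegaVal Γ n₂ > omegaVal Γ n₃) ∧
    ¬ (omegaVal Γ n₁ = omegaVal Γ n₂ ∧ omegaVal Γ n₂ > omegaVal Γ n₃) ∧
    ¬ (omegaVal Γ n₃ < omegaVal Γ n₁ ∧ omegaVal Γ n₁ < omegaVal Γ n₂) := by
  have hG : Γ = Gam ![n₁, n₂, n₃] := by
    rw [hΓ]
    unfold Gam
    congr 1
    ext x
    simp only [Set.mem_insert_iff, Set.mem_singleton_iff, Set.mem_range]
    constructor
    · rintro (rfl | rfl | rfl)
      · exact ⟨0, rfl⟩
      · exact ⟨1, rfl⟩
      · exact ⟨2, rfl⟩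
    · rintro ⟨j, rfl⟩
      fin_cases j
      · exact Or.inl rfl
      · exact Or.inr (Or.inl rfl)
      · exact Or.inr (Or.inr rfl)
  have hmain : min (omegaVal Γ n₁) (omegaVal Γ n₂) ≤ omegaVal Γ n₃ := by
    apply le_sInf
    rintro _ ⟨W, hW, hprop, rfl⟩
    rw [hG] at hprop ⊢
    rcases key h1 h12 h23 hW hprop with h | h
    · exact (min_le_left _ _).trans (sInf_le ⟨W, hW, h, rfl⟩)
    · exact (min_le_right _ _).trans (sInf_le ⟨W, hW, h, rfl⟩)
  refine ⟨hmain, ?_, ?_, ?_⟩
  · rintro ⟨ha, hb⟩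
    have := lt_min (hb.trans ha) hb
    exact absurd hmain (not_le.2 this)
  · rintro ⟨ha, hb⟩
    have := lt_min (ha ▸ hb) hb
    exact absurd hmain (not_le.2 this)
  · rintro ⟨ha, hb⟩
    have := lt_min ha (ha.trans hb)
    exact absurd hmain (not_le.2 this)

end Pool.Agent.Results.MP_1fb722_al.OmegaOrderings
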